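import Pool.Agent.T44.GF.Stm

/-!
GF_NORM: from relations over `ℚ` to relations over number fields of bounded degree. (helper45, for the
project GF of helper44)
-/

set_option autoImplicit false

namespace Pool.Agent.H45.GF

open MvPolynomial Module

/-- the degree of a finite compositum -/
theorem finrank_sup_finset {ι : Type*} (t : ι → IntermediateField ℚ ℂ) (D : ℕ) (s : Finset ι)
    (h : ∀ i ∈ s, finrank ℚ (t i) ≤ D) :
    finrank ℚ ↥(⨆ i ∈ s, t i : IntermediateField ℚ ℂ) ≤ D ^ s.card := by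
  classical
  induction s using Finset.induction_on with
  | empty =>
    have h1 : (⨆ i ∈ (∅ : Finset ι), t i : IntermediateField ℚ ℂ) = ⊥ := by simp
    rw [h1, IntermediateField.finrank_bot, Finset.card_empty, pow_zero]
  | insert a s ha ih =>
    rw [Finset.iSup_insert, Finset.card_insert_of_notMem ha, pow_succ, mul_comm]
    exact (IntermediateField.finrank_sup_le _ _).trans (Nat.mul_le_mul (h a (Finset.mem_insert_self a s))
      (ih fun i hi => h i (Finset.mem_insert_of_mem hi)))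

theorem totalDegree_map_le {R S ι : Type*} [CommSemiring R] [CommSemiring S] (f : R →+* S)
    (P : MvPolynomial ι R) : (MvPolynomial.map f P).totalDegree ≤ P.totalDegree := by
  unfold MvPolynomial.totalDegree
  exact Finset.sup_mono (MvPolynomial.support_map_subset f P)

section core

variable {ι : Type} [Fintype ι] {L : IntermediateField ℚ ℂ}

/-- a finite product of polynomials vanishing on an irreducible set -/
theorem prod_irr {G : Type*} {y : ι → ℂ} {Y : Set (ι → ℂ)} (hy : y ∈ Y)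
    (hirr : ∀ P Q : MvPolynomial ι ℂ, (∀ z ∈ Y, eval z P * eval z Q = 0) →
      (∀ z ∈ Y, eval z P = 0) ∨ ∀ z ∈ Y, eval z Q = 0) (F : G → MvPolynomial ι ℂ) (s : Finset G)
    (h : ∀ z ∈ Y, eval z (∏ i ∈ s, F i) = 0) : ∃ i ∈ s, ∀ z ∈ Y, eval z (F i) = 0 := by
  classical
  induction s using Finset.induction_on with
  | empty =>
    have := h y hy
    simp at this
  | insert a s ha ih =>
    rcases hirr (F a) (∏ i ∈ s, F i) (fun z hz => by
      have := h z hz
      rwa [Finset.prod_insert ha, map_mul] at this) with h1 | h1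
    · exact ⟨a, Finset.mem_insert_self a s, h1⟩
    · obtain ⟨i, hi, h2⟩ := ih h1
      exact ⟨i, Finset.mem_insert_of_mem hi, h2⟩

/-- the norm has rational coefficients -/
theorem norm_coeff [FiniteDimensional ℚ L] [IsGalois ℚ L] (P : MvPolynomial ι L) (m : ι →₀ ℕ) :
    (∏ σ : L ≃ₐ[ℚ] L, MvPolynomial.map ((σ : L ≃ₐ[ℚ] L) : L →+* L) P).coeff m ∈
      Set.range (algebraMap ℚ L) := by
  rw [IsGalois.mem_range_algebraMap_iff_fixed]
  intro τ
  have h1 : MvPolynomial.map ((τ : L ≃ₐ[ℚ] L) : L →+* L)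
      (∏ σ : L ≃ₐ[ℚ] L, MvPolynomial.map ((σ : L ≃ₐ[ℚ] L) : L →+* L) P) =
      ∏ σ : L ≃ₐ[ℚ] L, MvPolynomial.map ((σ : L ≃ₐ[ℚ] L) : L →+* L) P := by
    rw [map_prod]
    refine Fintype.prod_equiv (Equiv.mulLeft τ) _ _ fun σ => ?_
    rw [MvPolynomial.map_map]
    rfl
  have h2 := congrArg (fun Q => MvPolynomial.coeff m Q) h1
  simp only [MvPolynomial.coeff_map] at h2
  exact h2

theorem core [FiniteDimensional ℚ L] [IsGalois ℚ L] {δ δ' : ℕ} (hδ : finrank ℚ L * δ ≤ δ')
    {y : ι → ℂ} {Y : Set (ι → ℂ)} (hy : y ∈ Y)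
    (hirr : ∀ P Q : MvPolynomial ι ℂ, (∀ z ∈ Y, eval z P * eval z Q = 0) →
      (∀ z ∈ Y, eval z P = 0) ∨ ∀ z ∈ Y, eval z Q = 0)
    (hQ : ∀ P : MvPolynomial ι ℂ, (∀ m, P.coeff m ∈ (⊥ : Subfield ℂ)) → P.totalDegree ≤ δ' →
      eval y P = 0 → ∀ z ∈ Y, eval z P = 0)
    (P : MvPolynomial ι L) (hP : P.totalDegree ≤ δ) (h0 : eval y (MvPolynomial.map (algebraMap L ℂ) P) = 0) :
    ∀ z ∈ Y, eval z (MvPolynomial.map (algebraMap L ℂ) P) = 0 := by
  classical
  -- the space of relations at `y`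
  let V : Submodule ℚ (MvPolynomial ι L) :=
    { carrier := {P | P.totalDegree ≤ δ ∧ eval y (MvPolynomial.map (algebraMap L ℂ) P) = 0}
      add_mem' := by
        rintro a b ⟨ha, ha'⟩ ⟨hb, hb'⟩
        refine ⟨(totalDegree_add a b).trans (max_le ha hb), ?_⟩
        rw [map_add, map_add, ha', hb', add_zero]
      zero_mem' := by
        refine ⟨?_, ?_⟩
        · rw [totalDegree_zero]; exact Nat.zero_le _
        · simp
      smul_mem' := by
        rintro c a ⟨ha, ha'⟩
        have e : c • a = MvPolynomial.C ((algebraMap ℚ L) c) * a := by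
          rw [← MvPolynomial.smul_eq_C_mul]
          exact (algebraMap_smul L c a).symm
        refine ⟨?_, ?_⟩
        · exact (totalDegree_smul_le c a).trans ha
        · rw [e, map_mul, map_mul, ha', mul_zero] }
  have key : ∀ Q ∈ V, ∃ σ : L ≃ₐ[ℚ] L, ∀ z ∈ Y,
      eval z (MvPolynomial.map (algebraMap L ℂ) (MvPolynomial.map ((σ : L ≃ₐ[ℚ] L) : L →+* L) Q)) = 0 := by
    rintro Q ⟨hQ1, hQ2⟩
    obtain ⟨N, hN⟩ : ∃ N, N = ∏ σ : L ≃ₐ[ℚ] L, MvPolynomial.map ((σ : L ≃ₐ[ℚ] L) : L →+* L) Q := ⟨_, rfl⟩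
    have hc : ∀ m, (MvPolynomial.map (algebraMap L ℂ) N).coeff m ∈ (⊥ : Subfield ℂ) := by
      intro m
      rw [MvPolynomial.coeff_map]
      obtain ⟨q, hq⟩ := norm_coeff Q m
      rw [← hN] at hq
      rw [← hq, ← IsScalarTower.algebraMap_apply]
      simp
    have hd : (MvPolynomial.map (algebraMap L ℂ) N).totalDegree ≤ δ' := by
      refine le_trans ?_ hδ
      refine (totalDegree_map_le _ _).trans ?_
      rw [hN]
      refine (totalDegree_finsetProd _ _).trans ?_
      refine (Finset.sum_le_card_nsmul _ _ δ fun σ _ => (totalDegree_map_le _ _).trans hQ1).trans ?_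
      rw [Finset.card_univ, smul_eq_mul, ← Nat.card_eq_fintype_card, IsGalois.card_aut_eq_finrank]
    have hprod : MvPolynomial.map (algebraMap L ℂ) N = ∏ σ : L ≃ₐ[ℚ] L,
        MvPolynomial.map (algebraMap L ℂ) (MvPolynomial.map ((σ : L ≃ₐ[ℚ] L) : L →+* L) Q) := by
      rw [hN, map_prod]
    have he : eval y (MvPolynomial.map (algebraMap L ℂ) N) = 0 := by
      rw [hprod, map_prod]
      refine Finset.prod_eq_zero (Finset.mem_univ (1 : L ≃ₐ[ℚ] L)) ?_
      have : MvPolynomial.map (((1 : L ≃ₐ[ℚ] L) : L ≃ₐ[ℚ] L) : L →+* L) Q = Q := by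
        have h1 : (((1 : L ≃ₐ[ℚ] L) : L ≃ₐ[ℚ] L) : L →+* L) = RingHom.id L := by
          ext x
          rfl
        rw [h1, MvPolynomial.map_id]
      rw [this]
      exact hQ2
    have hv := hQ _ hc hd he
    obtain ⟨σ, -, hσ⟩ := prod_irr hy hirr (fun σ : L ≃ₐ[ℚ] L =>
      MvPolynomial.map (algebraMap L ℂ) (MvPolynomial.map ((σ : L ≃ₐ[ℚ] L) : L →+* L) Q)) Finset.univ
      (fun z hz => by rw [← hprod]; exact hv z hz)
    exact ⟨σ, hσ⟩
  -- one automorphism for all relations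
  let W : (L ≃ₐ[ℚ] L) → Subspace ℚ V := fun σ =>
    { carrier := {Q | ∀ z ∈ Y, eval z (MvPolynomial.map (algebraMap L ℂ)
        (MvPolynomial.map ((σ : L ≃ₐ[ℚ] L) : L →+* L) (Q : MvPolynomial ι L))) = 0}
      add_mem' := by
        intro a b ha hb z hz
        rw [Submodule.coe_add, map_add, map_add, map_add, ha z hz, hb z hz, add_zero]
      zero_mem' := by
        intro z hz
        simp
      smul_mem' := by
        intro c a ha z hz
        have e : ((c • a : V) : MvPolynomial ι L) = MvPolynomial.C ((algebraMap ℚ L) c) * (a : MvPolynomial ι L) := by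
          rw [← MvPolynomial.smul_eq_C_mul, Submodule.coe_smul]
          exact (algebraMap_smul L c (a : MvPolynomial ι L)).symm
        rw [e, map_mul, map_mul, map_mul, ha z hz, mul_zero] }
  have hcov : ⋃ σ, (W σ : Set V) = Set.univ := by
    rw [Set.eq_univ_iff_forall]
    intro Q
    obtain ⟨σ, hσ⟩ := key Q.1 Q.2
    exact Set.mem_iUnion.2 ⟨σ, hσ⟩
  obtain ⟨σ, hσ⟩ := Subspace.exists_eq_top_of_iUnion_eq_univ (k := ℚ) (p := W) hcov
  have hW : ∀ Q ∈ V, ∀ z ∈ Y, eval z (MvPolynomial.map (algebraMap L ℂ)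
      (MvPolynomial.map ((σ : L ≃ₐ[ℚ] L) : L →+* L) Q)) = 0 := by
    intro Q hQV
    have h1 : (⟨Q, hQV⟩ : V) ∈ W σ := by rw [hσ]; exact Submodule.mem_top
    exact h1
  have hstab : ∀ k : ℕ, ∀ Q ∈ V, MvPolynomial.map ((σ ^ k : L ≃ₐ[ℚ] L) : L →+* L) Q ∈ V := by
    intro k
    induction k with
    | zero =>
      intro Q hQV
      have h1 : ((σ ^ 0 : L ≃ₐ[ℚ] L) : L →+* L) = RingHom.id L := by
        ext x
        rfl
      rw [h1, MvPolynomial.map_id]
      exact hQV
    | succ k ih =>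
      intro Q hQV
      have h2 := ih Q hQV
      have h3 : MvPolynomial.map ((σ ^ (k + 1) : L ≃ₐ[ℚ] L) : L →+* L) Q =
          MvPolynomial.map ((σ : L ≃ₐ[ℚ] L) : L →+* L)
            (MvPolynomial.map ((σ ^ k : L ≃ₐ[ℚ] L) : L →+* L) Q) := by
        rw [MvPolynomial.map_map, pow_succ']
        rfl
      rw [h3]
      exact ⟨(totalDegree_map_le _ _).trans h2.1, hW _ h2 y hy⟩
  have hord : 0 < orderOf σ := orderOf_pos σ
  have h4 := hW _ (hstab (orderOf σ - 1) P ⟨hP, h0⟩)
  have h5 : MvPolynomial.map ((σ : L ≃ₐ[ℚ] L) : L →+* L)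
      (MvPolynomial.map ((σ ^ (orderOf σ - 1) : L ≃ₐ[ℚ] L) : L →+* L) P) = P := by
    have h6 : σ * σ ^ (orderOf σ - 1) = 1 := by
      rw [← pow_succ', Nat.sub_add_cancel hord, pow_orderOf_eq_one]
    rw [MvPolynomial.map_map]
    have h7 : ((σ : L ≃ₐ[ℚ] L) : L →+* L).comp ((σ ^ (orderOf σ - 1) : L ≃ₐ[ℚ] L) : L →+* L) =
        RingHom.id L := by
      ext x
      have := congrArg (fun τ : L ≃ₐ[ℚ] L => (τ x : ℂ)) h6
      exact this
    rw [h7, MvPolynomial.map_id]
  rw [h5] at h4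
  exact h4

end core

theorem main : Pool.Agent.T44.GF.S_NORM := by
  intro D δ
  refine ⟨D ^ D * δ, ?_⟩
  intro ι _ y Y hy hirr hQ K hK hKD P hP hPd hPy
  -- the field as an intermediate field
  let K' : IntermediateField ℚ ℂ := K.toIntermediateField fun q => by
    simp
  have hK' : FiniteDimensional ℚ K' := hK
  have hK'D : finrank ℚ K' ≤ D := hKD
  let L : IntermediateField ℚ ℂ := IntermediateField.normalClosure ℚ K' ℂ
  have hLn : IsNormalClosure ℚ K' L :=
    Algebra.IsAlgebraic.isNormalClosure_normalClosure fun x => IsAlgClosed.splits _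
  have hLN : Normal ℚ L := hLn.normal
  have hLF : FiniteDimensional ℚ L := normalClosure.is_finiteDimensional ℚ K' ℂ
  have hG : IsGalois ℚ L := ⟨⟩
  have hdeg : finrank ℚ L ≤ D ^ D := by
    classical
    have h1 : Finite (K' →ₐ[ℚ] ℂ) := inferInstance
    have := Fintype.ofFinite (K' →ₐ[ℚ] ℂ)
    have h2 : (⨆ f ∈ (Finset.univ : Finset (K' →ₐ[ℚ] ℂ)), f.fieldRange : IntermediateField ℚ ℂ) = L := by
      simp only [Finset.mem_univ, iSup_pos]
      rfl
    have h3 := finrank_sup_finset (fun f : K' →ₐ[ℚ] ℂ => f.fieldRange) D Finset.univ fun f _ => by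
      have h4 : finrank ℚ f.fieldRange = finrank ℚ K' :=
        (LinearEquiv.finrank_eq (AlgEquiv.ofInjectiveField f).toLinearEquiv).symm
      rw [h4]
      exact hK'D
    have h5 : (Finset.univ : Finset (K' →ₐ[ℚ] ℂ)).card ≤ D := by
      rw [Finset.card_univ, ← Nat.card_eq_fintype_card]
      exact (card_algHom_le_finrank ℚ K' ℂ).trans hK'D
    rw [h2] at h3
    have hD0 : 0 < D := lt_of_lt_of_le (Module.finrank_pos (R := ℚ) (M := K')) hK'D
    exact h3.trans (Nat.pow_le_pow_right hD0 h5)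
  have hKL : K' ≤ L := by
    have h1 := AlgHom.fieldRange_le_normalClosure (F := ℚ) (K := K') (L := ℂ) K'.val
    rwa [IntermediateField.fieldRange_val] at h1
  obtain ⟨P', hP'⟩ : ∃ P' : MvPolynomial ι L, MvPolynomial.map (algebraMap L ℂ) P' = P := by
    have h1 : P ∈ Set.range (MvPolynomial.map (algebraMap L ℂ)) := by
      rw [MvPolynomial.mem_range_map_iff_coeffs_subset]
      intro x hx
      rw [Finset.mem_coe, MvPolynomial.mem_coeffs_iff] at hx
      obtain ⟨n, -, rfl⟩ := hx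
      exact ⟨⟨P.coeff n, hKL (hP n)⟩, rfl⟩
    exact h1
  have hinj : Function.Injective (algebraMap L ℂ) := (algebraMap L ℂ).injective
  have hd' : P'.totalDegree ≤ δ := by
    rw [← hP'] at hPd
    rwa [MvPolynomial.totalDegree, MvPolynomial.support_map_of_injective P' hinj] at hPd
  have := core (L := L) (δ := δ) (δ' := D ^ D * δ) (Nat.mul_le_mul_right δ hdeg) hy hirr hQ P' hd'
    (by rw [hP']; exact hPy)
  rwa [hP'] at this

end Pool.Agent.H45.GF
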